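import Pool.Agent.Helper21.W4.St1

/-!
# Wilf in embedding dimension four: kappa is at most the number of points
-/

set_option autoImplicit false

namespace Pool.Agent.Helper13.W4

open Pool.Agent.Helper21.W4 Finset

theorem ar_ge {B : ℕ} (hB : 1 ≤ B) (s : ℕ → ℕ) : s 1 - 1 ≤ ar B s := by
  unfold ar
  have h := Finset.single_le_sum (f := fun p => s (p + 1) - 1) (s := range B)
    (fun i _ => Nat.zero_le _) (Finset.mem_range.2 (show 0 < B by omega))
  exact h

theorem hKm : StKm := by
  intro _ hI hC B h1 h2 h3 κ hp hκ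
  have hc := hC hI B h1 h2 h3 hp
  have e12 := hp.e12
  have e13 := hp.e13
  have n1 := hp.n1
  have n2 := hp.n2
  have n3 := hp.n3
  have hB : 1 ≤ B := by
    have := hp.bd 0 0 0 (by omega)
    omega
  have a12 := ar_ge hB (fun p => h2 p 0)
  have a13 := ar_ge hB (fun p => h3 p 0)
  have a23 := ar_ge hB (fun q => h3 0 q)
  obtain ⟨_, p, q, r, hm, hs⟩ := hκ
  have hp1 : p < h1 0 0 := by
    have := e12 p q r
    have := e12 p 0 r
    have := e13 p 0 r
    have := e13 p 0 0
    omega
  have hq1 : q < h2 0 0 := by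
    have := e13 0 q r
    have := e13 0 q 0
    have := e12 0 q 0
    omega
  have hr1 : r < h3 0 0 := by
    have := e12 0 q r
    have := e12 0 0 r
    have := e13 0 0 r
    omega
  have f12 : 1 ≤ p → 1 ≤ q → 1 < h2 1 0 := by
    intro _ _
    have := e12 1 q r
    have := e12 1 1 r
    have := e13 1 1 r
    have := e13 1 1 0
    have := e12 1 1 0
    omega
  have f13 : 1 ≤ p → 1 ≤ r → 1 < h3 1 0 := by
    intro _ _
    have := e13 1 q r
    have := e13 1 q 1
    have := e12 1 q 1
    have := e12 1 0 1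
    have := e13 1 0 1
    omega
  have f23 : 1 ≤ q → 1 ≤ r → 1 < h3 0 1 := by
    intro _ _
    have := e12 0 q r
    have := e12 0 1 r
    have := e13 0 1 r
    omega
  rcases Nat.eq_zero_or_pos p with h | h <;> rcases Nat.eq_zero_or_pos q with h' | h' <;>
    rcases Nat.eq_zero_or_pos r with h'' | h'' <;> omega

end Pool.Agent.Helper13.W4
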