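import Pool.Agent.Helper21.W4.St1

/-!
# Wilf in embedding dimension four: entries equal to one on the axes
-/

set_option autoImplicit false

namespace Pool.Agent.Helper13.W4

open Pool.Agent.Helper21.W4 Finset

/-- a count of an interval -/
theorem cnt {B a b : ℕ} {P : ℕ → Prop} [DecidablePred P] (hP : ∀ p, P p ↔ b ≤ p + 1 ∧ p + 1 < a)
    (hb : 1 ≤ b) (hba : b ≤ a) (haB : a ≤ B) : ((range B).filter P).card + b = a := by
  have h : (range B).filter P = Ico (b - 1) (a - 1) := by
    ext p
    rw [Finset.mem_filter, Finset.mem_range, Finset.mem_Ico, hP]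
    omega
  rw [h, Nat.card_Ico]
  omega

theorem hOne : StOne := by
  intro B h1 h2 h3 hp
  have e12 := hp.e12
  have e13 := hp.e13
  have bd := hp.bd
  have n1 := hp.n1
  have n2 := hp.n2
  have n3 := hp.n3
  constructor
  · refine cnt (P := fun p => h3 (p + 1) 0 = 1) (fun p => ?_) ?_ ?_ ?_
    · have a1 := e13 (p + 1) 0 0
      have a2 := e13 (p + 1) 0 1
      omega
    · have a1 := e13 0 0 1
      omega
    · by_contra hlt
      push Not at hlt
      have a1 := e13 (h1 0 0) 0 1
      have a2 := e13 (h1 0 0) 0 0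
      omega
    · have a1 := bd (h1 0 0 - 1) 0 0
      omega
  · refine cnt (P := fun q => h3 0 (q + 1) = 1) (fun q => ?_) ?_ ?_ ?_
    · have a1 := e13 0 (q + 1) 0
      have a2 := e13 0 (q + 1) 1
      have a3 := e12 0 (q + 1) 0
      have a4 := e12 0 (q + 1) 1
      omega
    · have a1 := e13 0 0 1
      have a2 := e12 0 0 1
      omega
    · by_contra hlt
      push Not at hlt
      have a1 := e12 0 (h2 0 0) 1
      have a2 := e13 0 (h2 0 0) 1
      have a3 := e12 0 (h2 0 0) 0
      have a4 := e13 0 (h2 0 0) 0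
      omega
    · have a1 := e12 0 (h2 0 0 - 1) 0
      have a2 := bd 0 (h2 0 0 - 1) 0
      omega

end Pool.Agent.Helper13.W4
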